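import Mathlib

set_option linter.unusedVariables false

namespace Pool.Agent.Results.MP_8cec24_co.NotMult

/-- every principal filter is order isomorphic to the whole poset -/
def IsUpho (P : Type) [PartialOrder P] : Prop :=
  ∀ a : P, Nonempty (Set.Ici a ≃o P)

/-- every element has finite height -/
def IsFinitary (P : Type) [PartialOrder P] : Prop :=
  ∀ a : P, Order.height a < ⊤

/-- graded by the natural numbers with finite rank levels -/
def IsFiniteTypeGraded (P : Type) [PartialOrder P] : Prop :=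
  ∃ (e : P) (ρ : P → ℕ), (∀ x, e ≤ x) ∧ ρ e = 0 ∧ (∀ x y, x ⋖ y → ρ y = ρ x + 1) ∧
    ∀ n, {x | ρ x = n}.Finite

/-- the order is the left divisibility order of an LCIF monoid on the same set -/
def IsMultiplicable (P : Type) [PartialOrder P] : Prop :=
  ∃ _ : Monoid P, (∀ a b c : P, a * b = a * c → b = c) ∧
    (∀ a b : P, a * b = 1 → a = 1 ∧ b = 1) ∧
    (∀ a b : P, a ≤ b ↔ ∃ c, a * c = b)

@[ext] structure W where
  k : ℕ
  m : ℕ
  g : ℤ → Bool
  lo : ∀ j : ℤ, j < -2 * (k : ℤ) → g j = false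
  hi : ∀ j : ℤ, (m : ℤ) - 2 * k ≤ j → g j = false

instance : PartialOrder W where
  le x y := x.k ≤ y.k ∧ x.m ≤ y.m ∧ ∀ j : ℤ, j < (x.m : ℤ) - 2 * y.k → y.g j = x.g j
  le_refl x := ⟨le_rfl, le_rfl, fun _ _ => rfl⟩
  le_trans x y z h1 h2 := by
    obtain ⟨a1, b1, c1⟩ := h1
    obtain ⟨a2, b2, c2⟩ := h2
    refine ⟨a1.trans a2, b1.trans b2, fun j hj => ?_⟩
    rw [c2 j (by omega), c1 j (by omega)]
  le_antisymm x y h1 h2 := by
    obtain ⟨a1, b1, c1⟩ := h1
    obtain ⟨a2, b2, c2⟩ := h2
    have hk : x.k = y.k := le_antisymm a1 a2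
    have hm : x.m = y.m := le_antisymm b1 b2
    refine W.ext hk hm ?_
    funext j
    by_cases hj : j < (x.m : ℤ) - 2 * y.k
    · exact (c1 j hj).symm
    · rw [x.hi j (by omega), y.hi j (by omega)]

lemma le_def (x y : W) :
    x ≤ y ↔ x.k ≤ y.k ∧ x.m ≤ y.m ∧ ∀ j : ℤ, j < (x.m : ℤ) - 2 * y.k → y.g j = x.g j := Iff.rfl

/-- cut a bit string -/
def cut (K M : ℕ) (g : ℤ → Bool) (hg : ∀ j : ℤ, j < -2 * (K : ℤ) → g j = false) : W where
  k := K
  m := M
  g := fun j => if j < (M : ℤ) - 2 * K then g j else false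
  lo := fun j hj => by rw [hg j hj]; simp
  hi := fun j hj => by rw [if_neg (by omega)]

def bot : W := ⟨0, 0, fun _ => false, fun _ _ => rfl, fun _ _ => rfl⟩

lemma bot_le (x : W) : bot ≤ x :=
  ⟨Nat.zero_le _, Nat.zero_le _, fun j hj => x.lo j (by simpa [bot] using hj)⟩

instance : OrderBot W where
  bot := bot
  bot_le := bot_le

lemma exists_lub_aux (x y : W) (hm : y.m ≤ x.m) :
    ∃ z, x ≤ z ∧ y ≤ z ∧ ∀ w, x ≤ w → y ≤ w → z ≤ w := by
  classical
  have hex : ∃ K : ℕ, x.k ≤ K ∧ y.k ≤ K ∧ ∀ j : ℤ, j < (y.m : ℤ) - 2 * K → x.g j = y.g j := by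
    refine ⟨x.k + y.k + y.m, by omega, by omega, fun j hj => ?_⟩
    push_cast at hj
    rw [x.lo j (by omega), y.lo j (by omega)]
  obtain ⟨h1, h2, h3⟩ := Nat.find_spec hex
  refine ⟨cut (Nat.find hex) x.m x.g (fun j hj => x.lo j (by omega)), ⟨h1, le_rfl, ?_⟩,
    ⟨h2, hm, ?_⟩, ?_⟩
  · intro j hj
    simp only [cut] at hj ⊢
    rw [if_pos hj]
  · intro j hj
    simp only [cut] at hj ⊢
    rw [if_pos (by omega)]
    exact h3 j hj
  · rintro w ⟨a1, b1, c1⟩ ⟨a2, b2, c2⟩
    have hK : Nat.find hex ≤ w.k := by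
      refine Nat.find_min' hex ⟨a1, a2, fun j hj => ?_⟩
      rw [← c1 j (by omega), c2 j hj]
    refine ⟨hK, b1, fun j hj => ?_⟩
    simp only [cut] at hj ⊢
    rw [if_pos (by omega)]
    exact c1 j hj

lemma exists_lub (x y : W) : ∃ z, x ≤ z ∧ y ≤ z ∧ ∀ w, x ≤ w → y ≤ w → z ≤ w := by
  rcases le_total y.m x.m with h | h
  · exact exists_lub_aux x y h
  · obtain ⟨z, h1, h2, h3⟩ := exists_lub_aux y x h
    exact ⟨z, h2, h1, fun w a b => h3 w b a⟩

noncomputable instance : SemilatticeSup W where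
  sup x y := (exists_lub x y).choose
  le_sup_left x y := (exists_lub x y).choose_spec.1
  le_sup_right x y := (exists_lub x y).choose_spec.2.1
  sup_le x y := (exists_lub x y).choose_spec.2.2

lemma finite_le (n : ℕ) : {x : W | x.k ≤ n ∧ x.m ≤ n}.Finite := by
  let f : W → ℕ × ℕ × Set ℤ := fun x => (x.k, x.m, {j | x.g j = true})
  have hf : Function.Injective f := by
    intro x y h
    simp only [f, Prod.mk.injEq] at h
    refine W.ext h.1 h.2.1 ?_
    funext j
    have := Set.ext_iff.1 h.2.2 j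
    simpa using this
  refine Set.Finite.of_finite_image (f := f) ?_ hf.injOn
  refine ((Set.finite_Iic n).prod ((Set.finite_Iic n).prod
    (Set.finite_Icc (-2 * (n : ℤ)) n).powerset)).subset ?_
  rintro _ ⟨x, ⟨h1, h2⟩, rfl⟩
  refine ⟨h1, h2, fun j hj => ?_⟩
  have hj' : x.g j = true := hj
  constructor
  · by_contra hc
    rw [x.lo j (by omega)] at hj'
    exact absurd hj' (by simp)
  · by_contra hc
    rw [x.hi j (by omega)] at hj'
    exact absurd hj' (by simp)

lemma finite_lower (x y : W) : {z : W | z ≤ x ∧ z ≤ y}.Finite := by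
  refine (finite_le (x.k + x.m)).subset ?_
  rintro z ⟨⟨h1, h2, _⟩, _⟩
  exact ⟨by omega, by omega⟩

noncomputable instance : Lattice W where
  inf x y := (finite_lower x y).toFinset.sup id
  inf_le_left x y := Finset.sup_le fun z hz => ((Set.Finite.mem_toFinset _).1 hz).1
  inf_le_right x y := Finset.sup_le fun z hz => ((Set.Finite.mem_toFinset _).1 hz).2
  le_inf z x y h1 h2 :=
    Finset.le_sup (f := id) ((Set.Finite.mem_toFinset (finite_lower x y)).2 ⟨h1, h2⟩)

def rk (x : W) : ℕ := x.k + x.m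

lemma eq_of_le_of_rk {x y : W} (h : x ≤ y) (hr : rk y ≤ rk x) : x = y := by
  obtain ⟨a, b, c⟩ := h
  unfold rk at hr
  refine le_antisymm ((le_def _ _).2 ⟨a, b, c⟩)
    ((le_def _ _).2 ⟨by omega, by omega, fun j hj => (c j (by omega)).symm⟩)

lemma rk_strictMono : StrictMono rk := by
  intro x y h
  by_contra hc
  exact h.ne (eq_of_le_of_rk h.le (not_lt.1 hc))

lemma exists_step {x y : W} (h : x < y) : ∃ z, x ≤ z ∧ z ≤ y ∧ rk z = rk x + 1 := by
  have hr := rk_strictMono h
  obtain ⟨a, b, c⟩ := h.le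
  unfold rk at hr
  by_cases hk : x.k < y.k
  · refine ⟨cut (x.k + 1) x.m x.g (fun j hj => x.lo j (by push_cast at hj; omega)),
      ⟨Nat.le_succ _, le_rfl, fun j hj => ?_⟩, ⟨hk, b, fun j hj => ?_⟩, ?_⟩
    · simp only [cut] at hj ⊢
      rw [if_pos hj]
    · simp only [cut] at hj ⊢
      rw [if_pos (by push_cast; omega)]
      exact c j hj
    · simp only [cut, rk]; omega
  · refine ⟨cut x.k (x.m + 1) y.g (fun j hj => y.lo j (by omega)),
      ⟨le_rfl, Nat.le_succ _, fun j hj => ?_⟩, ⟨a, by simp only [cut]; omega, fun j hj => ?_⟩, ?_⟩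
    · simp only [cut] at hj ⊢
      rw [if_pos (by push_cast; omega)]
      exact c j (by omega)
    · simp only [cut] at hj ⊢
      rw [if_pos (by omega)]
    · simp only [cut, rk]; omega

lemma rk_covBy {x y : W} (h : x ⋖ y) : rk y = rk x + 1 := by
  obtain ⟨z, h1, h2, h3⟩ := exists_step h.lt
  have hxz : x < z := lt_of_le_of_ne h1 (fun e => by rw [e] at h3; omega)
  have : z = y := by
    by_contra hne
    exact h.2 hxz (lt_of_le_of_ne h2 hne)
  rw [← this, h3]

lemma covBy_of_rk {x y : W} (h : x ≤ y) (hr : rk y = rk x + 1) : x ⋖ y := by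
  refine ⟨lt_of_le_of_ne h (fun e => by rw [e] at hr; omega), fun z h1 h2 => ?_⟩
  have := rk_strictMono h1
  have := rk_strictMono h2
  omega

/-- the isomorphism onto a principal filter -/
def shift (a x : W) : W :=
  cut (a.k + x.k) (a.m + x.m) (fun j => xor (x.g (j - (a.m - 2 * a.k))) (a.g j))
    (fun j hj => by
      push_cast at hj
      rw [x.lo _ (by omega), a.lo _ (by omega)]; rfl)

lemma le_shift (a x : W) : a ≤ shift a x := by
  refine ⟨Nat.le_add_right _ _, Nat.le_add_right _ _, fun j hj => ?_⟩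
  simp only [shift, cut] at hj ⊢
  push_cast at hj ⊢
  rw [if_pos (by omega), x.lo _ (by omega)]
  simp

lemma shift_le_iff (a x y : W) : shift a x ≤ shift a y ↔ x ≤ y := by
  simp only [le_def, shift, cut]
  push_cast
  constructor
  · rintro ⟨h1, h2, h3⟩
    refine ⟨by omega, by omega, fun j hj => ?_⟩
    have := h3 (j + (a.m - 2 * a.k)) (by omega)
    rw [if_pos (by omega), if_pos (by omega)] at this
    simpa using this
  · rintro ⟨h1, h2, h3⟩
    refine ⟨by omega, by omega, fun j hj => ?_⟩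
    rw [if_pos (by omega), if_pos (by omega), h3 _ (by omega)]

lemma shift_surj (a y : W) (h : a ≤ y) : ∃ x, shift a x = y := by
  obtain ⟨h1, h2, h3⟩ := h
  refine ⟨cut (y.k - a.k) (y.m - a.m)
    (fun i => xor (y.g (i + (a.m - 2 * a.k))) (a.g (i + (a.m - 2 * a.k)))) (fun j hj => ?_), ?_⟩
  · rw [h3 _ (by omega)]; simp
  · refine W.ext ?_ ?_ ?_
    · simp only [shift, cut]; omega
    · simp only [shift, cut]; omega
    · funext j
      simp only [shift, cut]
      by_cases hj : j < (y.m : ℤ) - 2 * y.k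
      · rw [if_pos (by omega), if_pos (by omega)]
        simp
      · rw [if_neg (by omega), y.hi j (by omega)]

lemma upho : IsUpho W := by
  intro a
  let f : W ↪o Set.Ici a :=
    OrderEmbedding.ofMapLEIff (fun x => ⟨shift a x, le_shift a x⟩) (fun x y => shift_le_iff a x y)
  have hf : Function.Surjective f := by
    rintro ⟨y, hy⟩
    obtain ⟨x, hx⟩ := shift_surj a y hy
    exact ⟨x, Subtype.ext hx⟩
  exact ⟨(RelIso.ofSurjective f hf).symm⟩

/-- the join of the upper covers -/
def del (x : W) : W :=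
  cut (x.k + 1) (x.m + 1) x.g (fun j hj => x.lo j (by push_cast at hj; omega))

/-- append a bit -/
def app (x : W) (b : Bool) : W where
  k := x.k
  m := x.m + 1
  g := fun j => if j = (x.m : ℤ) - 2 * x.k then b else x.g j
  lo := fun j hj => by rw [if_neg (by omega), x.lo j hj]
  hi := fun j hj => by
    push_cast at hj
    rw [if_neg (by omega), x.hi j (by omega)]

lemma le_app (x : W) (b : Bool) : x ≤ app x b := by
  refine ⟨le_rfl, Nat.le_succ _, fun j hj => ?_⟩
  simp only [app] at hj ⊢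
  rw [if_neg (by omega)]

lemma covBy_app (x : W) (b : Bool) : x ⋖ app x b :=
  covBy_of_rk (le_app x b) (by simp only [rk, app]; omega)

lemma isLUB_del (x : W) : IsLUB {z | x ⋖ z} (del x) := by
  constructor
  · intro z hz
    have hr := rk_covBy hz
    obtain ⟨a, b, c⟩ := (CovBy.le hz)
    unfold rk at hr
    refine ⟨by simp only [del, cut]; omega, by simp only [del, cut]; omega, fun j hj => ?_⟩
    simp only [del, cut] at hj ⊢
    push_cast at hj ⊢
    rw [if_pos (by omega), c j (by omega)]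
  · intro y hy
    obtain ⟨a0, b0, c0⟩ := hy (covBy_app x false)
    obtain ⟨a1, b1, c1⟩ := hy (covBy_app x true)
    simp only [app] at a0 b0 c0 a1 b1 c1
    push_cast at c0 c1
    have hk : x.k + 1 ≤ y.k := by
      by_contra hc
      have e0 := c0 (x.m - 2 * x.k) (by omega)
      have e1 := c1 (x.m - 2 * x.k) (by omega)
      simp only [if_true] at e0 e1
      rw [e0] at e1
      exact absurd e1 (by simp)
    refine ⟨hk, b0, fun j hj => ?_⟩
    simp only [del, cut] at hj ⊢
    push_cast at hj ⊢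
    rw [if_pos (by omega), c0 j hj, if_neg (by omega)]

lemma del_bot_le (t : W) : del bot ≤ del t := by
  refine ⟨by simp [del, cut, bot], by simp [del, cut, bot], fun j hj => ?_⟩
  simp only [del, cut, bot] at hj ⊢
  push_cast at hj ⊢
  rw [t.lo j (by omega)]
  simp

lemma not_mult : ¬ IsMultiplicable W := by
  rintro ⟨M, hc, -, hle⟩
  have one_le : ∀ x : W, 1 ≤ x := fun x => (hle _ _).2 ⟨x, one_mul x⟩
  have h1 : (1 : W) = bot := le_antisymm (one_le _) (bot_le _)
  have hmul : ∀ x c d : W, x * c ≤ x * d ↔ c ≤ d := by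
    intro x c d
    rw [hle, hle]
    constructor
    · rintro ⟨t, ht⟩
      exact ⟨t, hc x _ _ (by rw [← mul_assoc, ht])⟩
    · rintro ⟨t, ht⟩
      exact ⟨t, by rw [mul_assoc, ht]⟩
  have hlt : ∀ x c d : W, x * c < x * d ↔ c < d := by
    intro x c d
    rw [lt_iff_le_not_ge, lt_iff_le_not_ge, hmul, hmul]
  have hcov : ∀ x t : W, x ⋖ x * t ↔ 1 ⋖ t := by
    intro x t
    constructor
    · intro h
      refine ⟨(hlt x _ _).1 (by rw [mul_one]; exact h.1), fun u h2 h3 => ?_⟩
      refine h.2 (c := x * u) ?_ ((hlt x _ _).2 h3)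
      have := (hlt x _ _).2 h2
      rwa [mul_one] at this
    · intro h
      refine ⟨?_, fun u h2 h3 => ?_⟩
      · have := (hlt x _ _).2 h.1
        rwa [mul_one] at this
      · obtain ⟨v, rfl⟩ := (hle _ _).1 h2.le
        refine h.2 (c := v) ((hlt x _ _).1 (by rw [mul_one]; exact h2)) ((hlt x _ _).1 h3)
  have hdel : ∀ x : W, x * del 1 = del x := by
    intro x
    refine IsLUB.unique ⟨?_, ?_⟩ (isLUB_del x)
    · intro z hz
      obtain ⟨t, rfl⟩ := (hle _ _).1 (CovBy.le hz)
      exact (hmul _ _ _).2 ((isLUB_del 1).1 ((hcov _ _).1 hz))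
    · intro y hy
      have hxy : x ≤ y := (le_app x false).trans (hy (covBy_app x false))
      obtain ⟨u, rfl⟩ := (hle _ _).1 hxy
      refine (hmul _ _ _).2 ((isLUB_del 1).2 fun t ht => ?_)
      exact (hmul x _ _).1 (hy ((hcov _ _).2 ht))
  have h01 : del (app bot false) = del (app bot true) := by
    refine W.ext rfl rfl ?_
    funext j
    simp only [del, cut, app, bot]
    push_cast
    by_cases hj : j < 0
    · have h0 : j ≠ 0 := by omega
      simp [h0]
    · simp [hj]
  obtain ⟨t, ht⟩ := (hle _ _).1 (le_app (app bot true) false)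
  have hδ : del 1 ≤ t * del 1 := by rw [hdel t, h1]; exact del_bot_le t
  obtain ⟨t', ht'⟩ := (hle _ _).1 hδ
  have key : del (app bot false * t) = del (app (app bot true) false) := by
    rw [← ht, ← hdel (app bot false * t), ← hdel (app bot true * t), mul_assoc, mul_assoc, ← ht',
      ← mul_assoc, ← mul_assoc, hdel, hdel, h01]
  have hz : app bot false ≤ app bot false * t := (hle _ _).2 ⟨t, rfl⟩
  generalize app bot false * t = z at key hz
  obtain ⟨-, -, c⟩ := hz
  have ek : z.k + 1 = 0 + 1 := congrArg W.k key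
  have em : z.m + 1 = 0 + 1 + 1 + 1 := congrArg W.m key
  have eg := congrFun (congrArg W.g key) 0
  have ec := c 0 (by simp only [app, bot]; omega)
  simp only [del, cut, app, bot] at eg ec
  push_cast at eg ec
  rw [if_pos (by omega), ec] at eg
  simp at eg

theorem result : ∃ (P : Type) (_ : Lattice P),
    IsUpho P ∧ IsFinitary P ∧ IsFiniteTypeGraded P ∧ ¬ IsMultiplicable P := by
  refine ⟨W, inferInstance, upho, fun a => ?_, ⟨bot, rk, bot_le, rfl, fun _ _ => rk_covBy, ?_⟩,
    not_mult⟩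
  · refine lt_of_le_of_lt (Order.height_le_height_apply_of_strictMono rk rk_strictMono a) ?_
    simp
  · intro n
    refine (finite_le n).subset fun x hx => ?_
    have : x.k + x.m = n := hx
    exact ⟨by omega, by omega⟩

end Pool.Agent.Results.MP_8cec24_co.NotMult
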